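import Mathlib
import Pool.Agent.H.MP_b5e7a1_al.E

namespace Pool.Agent.Results.MP_b5e7a1_al.Yes

open CategoryTheory Limits

universe v u

/-- Diagrams in `C` of the shape of the directed graph `V` which satisfy the coproduct
condition at every vertex that is not a source. -/
structure Diag (C : Type u) [Category.{v} C] (V : Type) [Quiver.{0} V] where
  obj : V → C
  map : ∀ {a b : V}, (a ⟶ b) → (obj a ⟶ obj b)
  cop : ∀ b : V, Nonempty (Σ a : V, a ⟶ b) →
    Nonempty (IsColimit (Cofan.mk (obj b) (fun e : Σ a : V, a ⟶ b => map e.2)))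

/-- Morphisms of diagrams. -/
@[ext] structure DiagHom {C : Type u} [Category.{v} C] {V : Type} [Quiver.{0} V]
    (D D' : Diag C V) where
  app : ∀ a, D.obj a ⟶ D'.obj a
  comm : ∀ {a b : V} (e : a ⟶ b), D.map e ≫ app b = app a ≫ D'.map e

instance diagCategory (C : Type u) [Category.{v} C] (V : Type) [Quiver.{0} V] :
    Category (Diag C V) where
  Hom := DiagHom
  id D := ⟨fun a => 𝟙 (D.obj a), fun _ => by simp⟩
  comp f g := ⟨fun a => f.app a ≫ g.app a, fun e => by
    rw [← Category.assoc, f.comm, Category.assoc, g.comm, Category.assoc]⟩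
  id_comp f := DiagHom.ext (funext fun a => Category.id_comp (f.app a))
  comp_id f := DiagHom.ext (funext fun a => Category.comp_id (f.app a))
  assoc f g h := DiagHom.ext (funext fun a => Category.assoc (f.app a) (g.app a) (h.app a))

/-- The graph is a single directed cycle. -/
def IsCycleGraph (V : Type) [DecidableEq V] [Quiver.{0} V] [∀ a b : V, Fintype (a ⟶ b)] : Prop :=
  ∃ f : Equiv.Perm V, (∀ a b, f.SameCycle a b) ∧
    ∀ a b : V, Fintype.card (a ⟶ b) = if b = f a then 1 else 0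

/-- The Parry-Sullivan number. -/
def PS (V : Type) [Fintype V] [DecidableEq V] [Quiver.{0} V] [∀ a b : V, Fintype (a ⟶ b)] : ℤ :=
  (1 - Matrix.of fun a b : V => (Fintype.card (a ⟶ b) : ℤ)).det

open Pool.Agent.H.MP_b5e7a1_al

/-- The opposite of the category of sets. -/
structure SetOp where
  c : Type

instance setOpCategory : Category.{0} SetOp where
  Hom X Y := Y.c → X.c
  id _ := id
  comp f g := f ∘ g

lemma colim_iff {J : Type} (X : J → SetOp) (Y : SetOp) (f : ∀ j, X j ⟶ Y) :
    Nonempty (IsColimit (Cofan.mk Y f)) ↔ Function.Bijective (fun (y : Y.c) j => f j y) := by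
  constructor
  · rintro ⟨h⟩
    constructor
    · intro y y' hy
      have := Cofan.IsColimit.hom_ext h (A := ⟨Unit⟩) (fun _ => y) (fun _ => y')
        (fun j => funext fun _ => congrFun hy j)
      exact congrFun this ()
    · intro z
      exact ⟨Cofan.IsColimit.desc h (A := ⟨Unit⟩) (fun j _ => z j) (), funext fun j =>
        congrFun (Cofan.IsColimit.fac h (A := ⟨Unit⟩) (fun j _ => z j) j) ()⟩
  · intro h
    choose g hg using h.2
    exact ⟨Cofan.IsColimit.mk _ (fun s a => g (fun j => s.inj j a))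
      (fun s j => funext fun a => congrFun (hg (fun j => s.inj j a)) j)
      (fun s m hm => funext fun a => h.1 ((funext fun j => congrFun (hm j) a).trans (hg _).symm))⟩

lemma setOp_coprod : HasBinaryCoproducts SetOp := by
  have : ∀ {X Y : SetOp}, HasColimit (pair X Y) := fun {X Y} =>
    ⟨⟨⟨BinaryCofan.mk (P := (⟨X.c × Y.c⟩ : SetOp)) Prod.fst Prod.snd,
      BinaryCofan.isColimitMk (fun s a => (s.inl a, s.inr a)) (fun _ => rfl) (fun _ => rfl)
        (fun _ _ h1 h2 => funext fun a => Prod.ext (congrFun h1 a) (congrFun h2 a))⟩⟩⟩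
  exact hasBinaryCoproducts_of_hasColimit_pair _

def Γ (V : Type) [Quiver.{0} V] : (Diag SetOp V)ᵒᵖ ⥤ Alg V where
  obj D := ⟨fun v => (D.unop.obj v).c, fun e => D.unop.map e, fun v hv =>
    (colim_iff _ _ _).1 (D.unop.cop v hv)⟩
  map f := ⟨fun v => DiagHom.app f.unop v, fun e x =>
    (congrFun (DiagHom.comm f.unop e) x).symm⟩

instance (V : Type) [Quiver.{0} V] : (Γ V).Faithful :=
  ⟨fun h => Quiver.Hom.unop_inj (DiagHom.ext (congrArg AHom.f h))⟩

instance (V : Type) [Quiver.{0} V] : (Γ V).Full :=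
  ⟨fun {D D'} f => ⟨Quiver.Hom.op (⟨AHom.f f, fun e => funext fun x => (AHom.comm f e x).symm⟩ :
    DiagHom D'.unop D.unop), rfl⟩⟩

instance (V : Type) [Quiver.{0} V] : (Γ V).EssSurj :=
  ⟨fun A => ⟨Opposite.op ⟨fun v => ⟨A.X v⟩, fun e => A.act e, fun v hv =>
    (colim_iff _ _ _).2 (A.bij v hv)⟩, ⟨Iso.refl _⟩⟩⟩

section

variable {V : Type} [Fintype V] [DecidableEq V] [Quiver.{0} V] [∀ a b : V, Fintype (a ⟶ b)]

omit [DecidableEq V] in
lemma fin' : Fin' V := ⟨fun _ => inferInstance⟩

lemma adj_eq [Fin' V] (a b : V) : Model.adjT V b a = (Fintype.card (a ⟶ b) : ℝ) := by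
  have h1 := Fintype.sum_sigma (fun e : In b => if e.1 = a then (1 : ℝ) else 0)
  have h2 : ∑ c : V, ∑ e : c ⟶ b, (if c = a then (1 : ℝ) else 0) = Fintype.card (a ⟶ b) := by
    rw [Finset.sum_eq_single a]
    · simp
    · intro c _ hc
      simp [hc]
    · simp
  rw [← h2, ← h1, Model.adjT]
  refine Finset.sum_congr (Finset.ext fun _ => by simp) fun e _ => ?_
  by_cases h : e.1 = a <;> simp [h]

lemma PS_cast [Fin' V] : (PS V : ℝ) = (1 - Model.adjT V).det := by
  rw [PS, ← Matrix.det_transpose (1 - Model.adjT V)]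
  refine ((Int.castRingHom ℝ).map_det _).trans ?_
  rw [map_sub, map_one, Matrix.transpose_sub, Matrix.transpose_one]
  refine congrArg (fun M : Matrix V V ℝ => (1 - M).det) (Matrix.ext fun a b => ?_)
  simp [adj_eq]

omit [∀ a b : V, Fintype (a ⟶ b)] [Fintype V] [DecidableEq V] in
lemma src_cases (h : Quiver.IsStronglyConnected V) :
    NoSrc V ∨ (Subsingleton V ∧ ∀ v : V, IsEmpty (In v)) := by
  by_cases h1 : ∀ v : V, Nonempty (In v)
  · exact Or.inl ⟨h1⟩
  · obtain ⟨v, hv⟩ := not_forall.1 h1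
    have h2 : ∀ u, u = v := fun u => by
      obtain ⟨p⟩ := h u v
      cases p with
      | nil => rfl
      | cons p e => exact (hv ⟨⟨_, e⟩⟩).elim
    exact Or.inr ⟨⟨fun a b => (h2 a).trans (h2 b).symm⟩, fun w => by
      rw [h2 w]; exact not_nonempty_iff.1 hv⟩

lemma not_sub [NoSrc V] (h : Quiver.IsStronglyConnected V) (hc : ¬ IsCycleGraph V) :
    ¬ ∀ w : V, Subsingleton (In w) := by
  intro hs
  apply hc
  let e0 : ∀ v : V, In v := fun v => (NoSrc.ne v).some
  let pr : V → V := fun v => (e0 v).1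
  have h1 : ∀ {a b : V} (e : a ⟶ b), a = pr b := fun e =>
    congrArg Sigma.fst ((hs _).elim ⟨_, e⟩ (e0 _))
  have h2 : ∀ (a b : V) (p : Quiver.Path a b), ∃ k, pr^[k] b = a := by
    intro a b p
    induction p with
    | nil => exact ⟨0, rfl⟩
    | cons p e ih =>
      obtain ⟨k, hk⟩ := ih
      exact ⟨k + 1, by rw [Function.iterate_succ_apply, ← h1 e, hk]⟩
  have h3 : Function.Surjective pr := fun a => by
    obtain ⟨k, hk⟩ := h2 a (pr a) (h a _).some
    exact ⟨pr^[k] a, by rw [← Function.iterate_succ_apply' pr, Function.iterate_succ_apply, hk]⟩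
  let g : Equiv.Perm V := Equiv.ofBijective pr ⟨Finite.injective_iff_surjective.2 h3, h3⟩
  refine ⟨g⁻¹, fun a b => ?_, fun a b => ?_⟩
  · obtain ⟨k, hk⟩ := h2 b a (h b a).some
    exact Equiv.Perm.sameCycle_inv.2 ⟨k, by rw [zpow_natCast, Equiv.Perm.coe_pow]; exact hk⟩
  · split_ifs with hab
    · have h4 : a = pr b := by
        rw [hab]
        exact (g.apply_symm_apply a).symm
      subst h4
      rw [Fintype.card_eq_one_iff]
      exact ⟨(e0 b).2, fun e => eq_of_heq (Sigma.mk.inj ((hs _).elim ⟨_, e⟩ (e0 b))).2⟩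
    · rw [Fintype.card_eq_zero_iff]
      refine ⟨fun e => hab ?_⟩
      rw [h1 e]
      exact (g.symm_apply_apply b).symm

lemma PS_one (hV : ∀ v : V, IsEmpty (In v)) : PS V = 1 := by
  have : (Matrix.of fun a b : V => (Fintype.card (a ⟶ b) : ℤ)) = 0 := by
    ext a b
    have : IsEmpty (a ⟶ b) := ⟨fun e => (hV b).false ⟨a, e⟩⟩
    simp
  rw [PS, this, sub_zero, Matrix.det_one]

end

/-- There is a category with binary coproducts whose diagram categories determine the
Parry-Sullivan number of irreducible non-trivial finite directed graphs. -/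
theorem result :
    ∃ (C : Type 1) (_ : Category.{0} C), HasBinaryCoproducts C ∧
      ∀ (V W : Type) [Fintype V] [DecidableEq V] [Nonempty V] [Quiver.{0} V]
        [∀ a b : V, Fintype (a ⟶ b)] [Fintype W] [DecidableEq W] [Nonempty W] [Quiver.{0} W]
        [∀ a b : W, Fintype (a ⟶ b)],
        Quiver.IsStronglyConnected V → ¬ IsCycleGraph V →
        Quiver.IsStronglyConnected W → ¬ IsCycleGraph W →
        Nonempty (Diag C V ≌ Diag C W) → PS V = PS W := by
  refine ⟨SetOp, setOpCategory, setOp_coprod, ?_⟩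
  intro V W _ _ _ _ _ _ _ _ _ _ hV hV' hW hW' ⟨e⟩
  haveI : Fin' V := fin'
  haveI : Fin' W := fin'
  rcases src_cases hV with h1 | ⟨h1, h1'⟩ <;> rcases src_cases hW with h2 | ⟨h2, h2'⟩
  · obtain ⟨S, -⟩ := exists_sys (Γ V)
    obtain ⟨S', -⟩ := exists_sys (e.op.functor ⋙ Γ W)
    have := main_sys S S' hW (not_sub hW hW')
    rw [← PS_cast, ← PS_cast] at this
    exact_mod_cast this
  · obtain ⟨S, -⟩ := exists_sys (Γ V)
    exact (degenerate h2' (e.op.functor ⋙ Γ W) S hV (not_sub hV hV')).elim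
  · obtain ⟨S', -⟩ := exists_sys (e.op.functor ⋙ Γ W)
    exact (degenerate h1' (Γ V) S' hW (not_sub hW hW')).elim
  · rw [PS_one h1', PS_one h2']

end Pool.Agent.Results.MP_b5e7a1_al.Yes
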